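import Pool.Agent.Work.MP_db9399_bg.Base
import Pool.Agent.Work.MP_db9399_bg_helper43.PAT
import Pool.Agent.Work.MP_db9399_sc_helper26.PALL
import Pool.Agent.Work.MP_db9399_sc_helper6.STEP
import Pool.Agent.Work.MP_db9399_sc_helper31.DEP
import Pool.Agent.Work.MP_db9399_sc_helper43.TUT
import Pool.Agent.Work.MP_db9399_sc_helper59.HIT

/-!
# THEOREM BIG, block PEALL: the rounds of the colours `e1 y`
-/

set_option autoImplicit false

namespace Pool.Agent.Work.MP_db9399_bg.helper90.PEALL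

open Finset Classical
open Pool.Agent.Work.MP_db9399_all (nb)
open Pool.Agent.Work.MP_db9399_px (LWalk hit ee)
open Pool.Agent.Work.MP_db9399_dn (NB IsMat Tot)
open Pool.Agent.Work.MP_db9399_sc (cut Crit Conn Env Fam Rnd Hv)

universe u

theorem pall : MP_db9399_sc.Stmt_PALL.{u} :=
  MP_db9399_sc.helper26.stmt_PALL
    (MP_db9399_sc.helper6.stmt_STEP MP_db9399_sc.helper43.stmt_TUT
      MP_db9399_sc.helper59.stmt_HIT) MP_db9399_sc.helper31.stmt_DEP

section
variable {V : Type u} [Fintype V] {l m r K K1 k w w1 d : ℕ} {g δ σ c1 ε0 : ℝ}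
  {G : SimpleGraph V} {lab : V → Lbl l m r K K1}

/-! ## Degrees into labels -/

theorem deg_le (hB : BG g ε0 G d) (hLab : LabP G d σ c1 lab) (v : V)
    (P : Finset (Lbl l m r K K1)) :
    ((nb G v ∩ cl lab P).card : ℝ) ≤ den P * d + σ * d := by
  have h1 := (abs_le.mp (hLab.deg v P)).2
  have h2 : ((nb G v).card : ℝ) ≤ d := by exact_mod_cast hB.deg v
  have h3 := mul_le_mul_of_nonneg_left h2 (den_nonneg P)
  linarith

theorem deg_ge (hB : BG g ε0 G d) (hLab : LabP G d σ c1 lab) (v : V)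
    (P : Finset (Lbl l m r K K1)) :
    den P * ((1 - ε0) * d) - σ * d ≤ ((nb G v ∩ cl lab P).card : ℝ) := by
  have h1 := (abs_le.mp (hLab.deg v P)).1
  have h3 := mul_le_mul_of_nonneg_left (hB.low v) (den_nonneg P)
  linarith

/-- neighbours following the last pattern -/
noncomputable def NP (G : SimpleGraph V) (lab : V → Lbl l m r K K1)
    (b : ZMod (2 * l + 1)) (v : V) : Finset V :=
  nb G v ∩ cl lab (PN (eP l m r K K1) (eR l) b)

theorem mem_eP {b : ZMod (2 * l + 1)} {t : Lbl l m r K K1} :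
    t ∈ eP l m r K K1 b ↔ t.2.1 = b := by
  unfold eP
  rw [mem_bx]
  simp only [Finset.mem_univ, Finset.mem_singleton, true_and, and_true]

theorem mem_PNe {b : ZMod (2 * l + 1)} {t : Lbl l m r K K1} :
    t ∈ PN (eP l m r K K1) (eR l) b ↔ rs b t.2.1 := by
  rw [mem_PN]
  constructor
  · rintro ⟨b', h1, h2⟩
    rw [mem_eP] at h2
    rw [h2]
    exact h1
  · intro h
    exact ⟨t.2.1, h, mem_eP.mpr rfl⟩

theorem mem_NP {b : ZMod (2 * l + 1)} {v x : V} :
    x ∈ NP G lab b v ↔ G.Adj v x ∧ rs b (lab x).2.1 := by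
  unfold NP
  rw [Finset.mem_inter, mem_nb, mem_cl, mem_PNe]

theorem den_PNe (hl : 1 ≤ l) (hm : 1 ≤ m) (b : ZMod (2 * l + 1)) :
    den (PN (eP l m r K K1) (eR l) b) = 2 / (2 * (l : ℝ) + 1) := by
  rw [(helper43.stmt_PAT l m r K K1 hl hm).2.den_PN b]
  push_cast
  ring

theorem NP_le (hl : 1 ≤ l) (hm : 1 ≤ m) (hB : BG g ε0 G d) (hLab : LabP G d σ c1 lab)
    (b : ZMod (2 * l + 1)) (v : V) : ((NP G lab b v).card : ℝ) ≤ qe l d + σ * d := by
  have h := deg_le hB hLab v (PN (eP l m r K K1) (eR l) b)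
  rw [den_PNe hl hm] at h
  unfold NP qe
  have e : 2 / (2 * (l : ℝ) + 1) * d = 2 * (d : ℝ) / (2 * l + 1) := by ring
  rw [e] at h
  exact h

theorem NP_ge (hl : 1 ≤ l) (hm : 1 ≤ m) (hB : BG g ε0 G d) (hLab : LabP G d σ c1 lab)
    (b : ZMod (2 * l + 1)) (v : V) :
    (1 - ε0) * qe l d - σ * d ≤ ((NP G lab b v).card : ℝ) := by
  have h := deg_ge hB hLab v (PN (eP l m r K K1) (eR l) b)
  rw [den_PNe hl hm] at h
  unfold NP qe
  have e : 2 / (2 * (l : ℝ) + 1) * ((1 - ε0) * d) = (1 - ε0) * (2 * (d : ℝ) / (2 * l + 1)) := by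
    ring
  rw [e] at h
  exact h

theorem cell_le (hB : BG g ε0 G d) (hLab : LabP G d σ c1 lab) (a : ZMod (2 * m + 1)) (v : V) :
    ((nb G v ∩ Vc lab a).card : ℝ) ≤ (d : ℝ) / (2 * m + 1) + σ * d := by
  have h := deg_le hB hLab v (bx {a} univ univ univ univ univ)
  rw [den_cell, ← Vc_eq] at h
  have e : 1 / (2 * (m : ℝ) + 1) * d = (d : ℝ) / (2 * m + 1) := by ring
  rw [e] at h
  exact h

/-- vertices with last label `y1` or `y2` -/
theorem spl_le (hB : BG g ε0 G d) (hLab : LabP G d σ c1 lab) (y1 y2 : Fin (K1 + 1)) (v : V) :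
    ((nb G v ∩ univ.filter (fun x => (lab x).2.2.2.2.2 = y1 ∨
      (lab x).2.2.2.2.2 = y2)).card : ℝ) ≤ 2 * (d : ℝ) / (K1 + 1) + σ * d := by
  have h := deg_le hB hLab v (bx univ univ univ univ univ {y1, y2})
  have e1 : cl lab (bx univ univ univ univ univ {y1, y2}) =
      univ.filter (fun x => (lab x).2.2.2.2.2 = y1 ∨ (lab x).2.2.2.2.2 = y2) := by
    ext x
    rw [mem_cl, mem_bx]
    simp
  have e2 : den (bx univ univ univ univ univ {y1, y2} : Finset (Lbl l m r K K1)) ≤
      2 / ((K1 : ℝ) + 1) := by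
    rw [den_bx, card_univ_zmod, card_univ_zmod, card_univ_fin, card_univ_fin]
    have h1 : (2 * (m : ℝ) + 1) ≠ 0 := by positivity
    have h2 : (2 * (l : ℝ) + 1) ≠ 0 := by positivity
    have h3 : ((r : ℝ) + 1) ≠ 0 := by positivity
    have h4 : ((K : ℝ) + 1) ≠ 0 := by positivity
    rw [div_self h1, div_self h2, div_self h3, div_self h4]
    have h5 : (({y1, y2} : Finset (Fin (K1 + 1))).card : ℝ) ≤ 2 := by
      exact_mod_cast Finset.card_le_two
    simp only [one_mul]
    exact div_le_div_of_nonneg_right h5 (by positivity)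
  rw [e1] at h
  have e3 := mul_le_mul_of_nonneg_right e2 (Nat.cast_nonneg d : (0 : ℝ) ≤ (d : ℝ))
  have e4 : 2 / ((K1 : ℝ) + 1) * d = 2 * (d : ℝ) / (K1 + 1) := by ring
  rw [e4] at e3
  linarith

/-! ## The reserve graph -/

theorem Rg_sub {UH : Finset V} (v : V) : nb (Rg G UH lab) v ⊆ NP G lab (lab v).2.1 v := by
  intro x hx
  rw [mem_nb] at hx
  rw [mem_NP]
  exact ⟨hx.1, hx.2.2.2.2⟩

theorem Rg_miss {UH : Finset V} {v : V} (hv : v ∉ UH) :
    NP G lab (lab v).2.1 v \ nb (Rg G UH lab) v ⊆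
      (nb G v ∩ UH) ∪ (nb G v ∩ Vc lab (lab v).1) := by
  intro x hx
  rw [Finset.mem_sdiff, mem_NP, mem_nb] at hx
  rw [Finset.mem_union, Finset.mem_inter, Finset.mem_inter, mem_nb, mem_Vc]
  by_contra hcon
  push Not at hcon
  apply hx.2
  exact ⟨hx.1.1, hv, hcon.1 hx.1.1, fun h => hcon.2 hx.1.1 h.symm, hx.1.2⟩

omit [Fintype V] in
theorem Rg_le {UH : Finset V} : Rg G UH lab ≤ G := fun _ _ h => h.1

theorem nb_mono {F F' : SimpleGraph V} (h : F ≤ F') (v : V) : nb F v ⊆ nb F' v := by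
  intro x hx
  rw [mem_nb] at hx ⊢
  exact h hx

/-! ## The matchings of the first rounds -/

/-- index sets -/
theorem card_c3 (c : ZMod (2 * m + 1)) :
    (univ.filter (fun x : Ix m w => c ∈ c3 x.1 x.2.1)).card ≤ 3 * (m * w) := by
  have hsub : univ.filter (fun x : Ix m w => c ∈ c3 x.1 x.2.1) ⊆
      (univ : Finset (Fin 3 × (Fin m × Fin w))).image (fun z =>
        ((![c, c - ((z.2.1 : ℕ) + 1 : ℕ), c + ((z.2.1 : ℕ) + 1 : ℕ)] : Fin 3 → _) z.1,
          z.2.1, z.2.2)) := by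
    intro x hx
    have h := (Finset.mem_filter.mp hx).2
    rw [mem_c3] at h
    rw [Finset.mem_image]
    obtain ⟨a, h', s⟩ := x
    rcases h with h | h | h
    · refine ⟨(0, h', s), Finset.mem_univ _, ?_⟩
      simp only [Matrix.cons_val_zero]
      rw [h]
    · refine ⟨(1, h', s), Finset.mem_univ _, ?_⟩
      simp only [Matrix.cons_val_one, Matrix.cons_val_zero]
      rw [h]
      simp
    · refine ⟨(2, h', s), Finset.mem_univ _, ?_⟩
      simp only [Matrix.cons_val]
      rw [h]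
      simp
  refine (Finset.card_le_card hsub).trans (Finset.card_image_le.trans ?_)
  rw [Finset.card_univ, Fintype.card_prod, Fintype.card_prod, Fintype.card_fin, Fintype.card_fin,
    Fintype.card_fin]

theorem card_kap (c : ZMod (2 * m + 1)) :
    (univ.filter (fun x : Ix m w => x.1 = c)).card ≤ m * w := by
  have hsub : univ.filter (fun x : Ix m w => x.1 = c) ⊆
      (univ : Finset (Fin m × Fin w)).image (fun z => (c, z.1, z.2)) := by
    intro x hx
    have h := (Finset.mem_filter.mp hx).2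
    rw [Finset.mem_image]
    obtain ⟨a, h', s⟩ := x
    refine ⟨(h', s), Finset.mem_univ _, ?_⟩
    simp only at h
    rw [h]
  refine (Finset.card_le_card hsub).trans (Finset.card_image_le.trans ?_)
  rw [Finset.card_univ, Fintype.card_prod, Fintype.card_fin, Fintype.card_fin]

/-- all matchings of the first rounds -/
def DD (M : Ix m w → SimpleGraph V) : SimpleGraph V := ⨆ x, M x

omit [Fintype V] in
theorem DD_adj {M : Ix m w → SimpleGraph V} {v v' : V} :
    (DD M).Adj v v' ↔ ∃ x, (M x).Adj v v' := by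
  unfold DD
  rw [SimpleGraph.iSup_adj]

theorem DD_deg {UH : Finset V} {c0 tu : V → Fin k} {e : Ix m w → Fin k} {c : V → Fin k}
    {wv : V → Fin k → V} {Nd M : Ix m w → SimpleGraph V} {O : Ix m w → Finset V}
    (hN : NDec G UH lab Nd) (hP : P0R g G d UH c0 tu lab e c wv Nd M O) (v : V) :
    (nb (DD M) v).card ≤ 4 * (m * w) := by
  have hsub : nb (DD M) v ⊆ (univ.filter (fun x : Ix m w => (nb (M x) v).Nonempty)).biUnion
      (fun x => nb (M x) v) := by
    intro y hy
    rw [mem_nb, DD_adj] at hy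
    obtain ⟨x, hx⟩ := hy
    rw [Finset.mem_biUnion]
    exact ⟨x, Finset.mem_filter.mpr ⟨Finset.mem_univ _, y, mem_nb.mpr hx⟩, mem_nb.mpr hx⟩
  have hidx : univ.filter (fun x : Ix m w => (nb (M x) v).Nonempty) ⊆
      univ.filter (fun x : Ix m w => (lab v).1 ∈ c3 x.1 x.2.1) ∪
        univ.filter (fun x : Ix m w => x.1 = (lab v).2.2.2.1) := by
    intro x hx
    obtain ⟨y, hy⟩ := (Finset.mem_filter.mp hx).2
    have h1 := (hP.le x _ _ (mem_nb.mp hy)).2
    unfold Ub Jk at h1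
    rw [Finset.mem_filter, Finset.mem_filter] at h1
    rw [Finset.mem_union, Finset.mem_filter, Finset.mem_filter]
    rcases h1.2 with h2 | h2
    · exact Or.inl ⟨Finset.mem_univ _, h2.2.1⟩
    · right
      refine ⟨Finset.mem_univ _, ?_⟩
      by_contra hne
      exact h2.2.2.2 (hN.cov x v h2.2.1 h2.2.2.1 (fun h => hne h.1.symm))
  have h1 : (nb (DD M) v).card ≤ (univ.filter (fun x : Ix m w => (nb (M x) v).Nonempty)).card := by
    refine (Finset.card_le_card hsub).trans (Finset.card_biUnion_le.trans ?_)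
    calc ∑ x ∈ univ.filter (fun x : Ix m w => (nb (M x) v).Nonempty), (nb (M x) v).card
        ≤ ∑ _x ∈ univ.filter (fun x : Ix m w => (nb (M x) v).Nonempty), 1 :=
          Finset.sum_le_sum fun x _ => hP.mat x v
      _ = _ := by simp
  have h2 := Finset.card_le_card hidx
  have h3 := Finset.card_union_le (univ.filter (fun x : Ix m w => (lab v).1 ∈ c3 x.1 x.2.1))
    (univ.filter (fun x : Ix m w => x.1 = (lab v).2.2.2.1))
  have h4 := card_c3 (w := w) (lab v).1
  have h5 := card_kap (w := w) (lab v).2.2.2.1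
  omega

/-! ## Forbidden vertices -/

/-- forbidden vertices in the round of the colour `b` -/
noncomputable def XX (UH : Finset V) (c0 tu : V → Fin k) (wv : V → Fin k → V)
    (e1 : Fin (K1 + 1) × Fin (K1 + 1) × Fin w1 → Fin k)
    (Kk : Fin (K1 + 1) × Fin (K1 + 1) × Fin w1 → SimpleGraph V) (b : Fin k) : Finset V :=
  (UH ∪ UW UH c0 tu wv b) ∪ univ.filter (fun v => ∃ y, e1 y = b ∧ (nb (Kk y) v).Nonempty)

theorem XX_le {UH : Finset V} {c0 tu : V → Fin k} {EH : SimpleGraph V} {e : Ix m w → Fin k}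
    {e1 : Fin (K1 + 1) × Fin (K1 + 1) × Fin w1 → Fin k} {c : V → Fin k}
    {wv : V → Fin k → V} {Nd : Ix m w → SimpleGraph V}
    {Kk : Fin (K1 + 1) × Fin (K1 + 1) × Fin w1 → SimpleGraph V} {δ2 : ℝ}
    (hB : BG g ε0 G d) (hLab : LabP G d σ c1 lab) (hH : HPre G UH c0 EH tu)
    (he1 : Function.Injective e1) (hU : UPar G d δ2 UH c0 tu lab e e1 c wv)
    (hL : Lft G UH lab Nd Kk) (y : Fin (K1 + 1) × Fin (K1 + 1) × Fin w1) (v : V) :
    ((nb G v ∩ XX UH c0 tu wv e1 Kk (e1 y)).card : ℝ) ≤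
      2 + δ2 * d + (2 * (d : ℝ) / (K1 + 1) + σ * d) := by
  have hsub : nb G v ∩ XX UH c0 tu wv e1 Kk (e1 y) ⊆
      ((nb G v ∩ UH) ∪ (nb G v ∩ UW UH c0 tu wv (e1 y))) ∪
        (nb G v ∩ univ.filter (fun x => (lab x).2.2.2.2.2 = y.1 ∨
          (lab x).2.2.2.2.2 = y.2.1)) := by
    intro x hx
    rw [Finset.mem_inter] at hx
    obtain ⟨hx1, hx2⟩ := hx
    unfold XX at hx2
    rw [Finset.mem_union, Finset.mem_union] at hx2
    rw [Finset.mem_union, Finset.mem_union, Finset.mem_inter, Finset.mem_inter,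
      Finset.mem_inter]
    rcases hx2 with (h | h) | h
    · exact Or.inl (Or.inl ⟨hx1, h⟩)
    · exact Or.inl (Or.inr ⟨hx1, h⟩)
    · obtain ⟨y', hy', z, hz⟩ := (Finset.mem_filter.mp h).2
      have hyy : y' = y := he1 hy'
      subst hyy
      have h1 := (hL.mem y' x z (mem_nb.mp hz)).2.2
      exact Or.inr ⟨hx1, Finset.mem_filter.mpr ⟨Finset.mem_univ _, h1⟩⟩
  have h1 := (Finset.card_le_card hsub).trans (Finset.card_union_le _ _)
  have h2 := Finset.card_union_le (nb G v ∩ UH) (nb G v ∩ UW UH c0 tu wv (e1 y))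
  have h3 := hH.two v
  have h4 := hU.spr v (e1 y) (Or.inr ⟨y, rfl⟩)
  have h5 := spl_le hB hLab y.1 y.2.1 v
  have h6 : ((nb G v ∩ XX UH c0 tu wv e1 Kk (e1 y)).card : ℝ) ≤
      2 + ((nb G v ∩ UW UH c0 tu wv (e1 y)).card : ℝ) +
        ((nb G v ∩ univ.filter (fun x => (lab x).2.2.2.2.2 = y.1 ∨
          (lab x).2.2.2.2.2 = y.2.1)).card : ℝ) := by
    have : (nb G v ∩ XX UH c0 tu wv e1 Kk (e1 y)).card ≤
      2 + (nb G v ∩ UW UH c0 tu wv (e1 y)).card +
        (nb G v ∩ univ.filter (fun x => (lab x).2.2.2.2.2 = y.1 ∨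
          (lab x).2.2.2.2.2 = y.2.1)).card := by omega
    exact_mod_cast this
  linarith

/-! ## No almost bipartite parts in the reserve graph -/

theorem sum_inter_comm (F : SimpleGraph V) (S T : Finset V) :
    ∑ s ∈ S, (nb F s ∩ T).card = ∑ t ∈ T, (nb F t ∩ S).card := by
  have h := Finset.sum_card_bipartiteAbove_eq_sum_card_bipartiteBelow (s := S) (t := T)
    (fun x y => F.Adj x y)
  have e1 : ∀ s, Finset.bipartiteAbove (fun x y => F.Adj x y) T s = nb F s ∩ T := by
    intro s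
    ext x
    rw [Finset.mem_bipartiteAbove, Finset.mem_inter, mem_nb]
    exact and_comm
  have e2 : ∀ t, Finset.bipartiteBelow (fun x y => F.Adj x y) S t = nb F t ∩ S := by
    intro t
    ext x
    rw [Finset.mem_bipartiteBelow, Finset.mem_inter, mem_nb, SimpleGraph.adj_comm]
    exact and_comm
  simpa only [e1, e2] using h

theorem enP_eq (A B : Finset V) : enP G lab (eP l m r K K1) (eR l) A B =
    (∑ t ∈ A, ((NP G lab (lab t).2.1 t \ B).card : ℝ)) +
      ∑ s ∈ B, ((NP G lab (lab s).2.1 s \ A).card : ℝ) := by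
  have key : ∀ A B : Finset V, ∑ b, ∑ t ∈ A ∩ cl lab (eP l m r K K1 b),
      (((nb G t ∩ cl lab (PN (eP l m r K K1) (eR l) b)) \ B).card : ℝ) =
      ∑ t ∈ A, ((NP G lab (lab t).2.1 t \ B).card : ℝ) := by
    intro A B
    have e1 : ∀ b, A ∩ cl lab (eP l m r K K1 b) = A.filter (fun t => (lab t).2.1 = b) := by
      intro b
      ext t
      rw [Finset.mem_inter, mem_cl, mem_eP, Finset.mem_filter]
    rw [← Finset.sum_fiberwise A (fun t => (lab t).2.1)
      (fun t => ((NP G lab (lab t).2.1 t \ B).card : ℝ))]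
    refine Finset.sum_congr rfl fun b _ => ?_
    rw [e1 b]
    refine Finset.sum_congr rfl fun t ht => ?_
    rw [(Finset.mem_filter.mp ht).2]
    rfl
  unfold enP
  rw [Finset.sum_add_distrib, key A B, key B A]

theorem NB_Rg {UH : Finset V} {η cE q : ℝ} {dR : ℕ} (hη : 0 < η) (hηc : 20 * η ≤ cE)
    (hq : q = qe l d) (hq0 : 0 < q) (hSX : EndSX cE G d lab)
    (hloss : ∀ v, v ∉ UH → ((NP G lab (lab v).2.1 v \ nb (Rg G UH lab) v).card : ℝ) ≤
      η / 100 * q) (hdR0 : 0 < (dR : ℝ)) (hη1 : η ≤ 1 / 100)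
    (hdR1 : (dR : ℝ) ≤ 101 / 100 * q) (hdeg : ∀ v, (nb (Rg G UH lab) v).card ≤ dR) :
    NB η (Rg G UH lab) dR (Hv η (Rg G UH lab) dR) := by
  intro S T hST hTL hcard
  set F := Rg G UH lab with hF
  have hFU : ∀ x y, F.Adj x y → x ∉ UH ∧ y ∉ UH := fun x y h => ⟨h.2.1, h.2.2.1⟩
  have hTU : ∀ t ∈ T, t ∉ UH := by
    intro t ht htU
    have h1 := (Finset.mem_filter.mp (hTL ht)).2
    have h2 : nb F t = ∅ := by
      rw [Finset.eq_empty_iff_forall_notMem]
      intro x hx
      exact (hFU t x (mem_nb.mp hx)).1 htU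
    rw [h2, Finset.card_empty] at h1
    push_cast at h1
    have h3 : 0 < (1 - η / 16) * (dR : ℝ) := mul_pos (by linarith) hdR0
    linarith
  obtain ⟨S', hS'⟩ : ∃ S', S' = S \ UH := ⟨_, rfl⟩
  have hS'c : (S'.card : ℝ) ≤ (1 + η) * T.card := by
    refine le_trans ?_ hcard
    rw [hS']
    exact_mod_cast Finset.card_le_card Finset.sdiff_subset
  have hST' : Disjoint T S' := by
    rw [hS']
    exact (Finset.disjoint_of_subset_left Finset.sdiff_subset hST).symm
  have hgoal : ∀ t ∈ T, nb F t \ S = nb F t \ S' := by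
    intro t _
    ext x
    rw [Finset.mem_sdiff, Finset.mem_sdiff, hS', Finset.mem_sdiff]
    constructor
    · rintro ⟨h1, h2⟩
      exact ⟨h1, fun h => h2 h.1⟩
    · rintro ⟨h1, h2⟩
      exact ⟨h1, fun h => h2 ⟨h, (hFU t x (mem_nb.mp h1)).2⟩⟩
  rw [Finset.sum_congr rfl (fun t ht => by rw [hgoal t ht])]
  -- the energy
  have h1 := hSX T S' hST'
  rw [enP_eq, ← hq] at h1
  have hl : ∀ A B : Finset V, (∀ t ∈ A, t ∉ UH) →
      ∑ t ∈ A, ((NP G lab (lab t).2.1 t \ B).card : ℝ) ≤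
        ∑ t ∈ A, ((nb F t \ B).card : ℝ) + η / 100 * q * A.card := by
    intro A B hA
    have h2 : ∀ t ∈ A, ((NP G lab (lab t).2.1 t \ B).card : ℝ) ≤
        ((nb F t \ B).card : ℝ) + η / 100 * q := by
      intro t ht
      have h3 : NP G lab (lab t).2.1 t \ B ⊆ (nb F t \ B) ∪
          (NP G lab (lab t).2.1 t \ nb F t) := by
        intro x hx
        rw [Finset.mem_sdiff] at hx
        rw [Finset.mem_union, Finset.mem_sdiff, Finset.mem_sdiff]
        by_cases h4 : x ∈ nb F t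
        · exact Or.inl ⟨h4, hx.2⟩
        · exact Or.inr ⟨hx.1, h4⟩
      have h5 := (Finset.card_le_card h3).trans (Finset.card_union_le _ _)
      have h6 : ((NP G lab (lab t).2.1 t \ B).card : ℝ) ≤ ((nb F t \ B).card : ℝ) +
          ((NP G lab (lab t).2.1 t \ nb F t).card : ℝ) := by exact_mod_cast h5
      linarith [hloss t (hA t ht)]
    refine (Finset.sum_le_sum h2).trans ?_
    rw [Finset.sum_add_distrib, Finset.sum_const, nsmul_eq_mul]
    linarith
  have hSU : ∀ s ∈ S', s ∉ UH := by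
    intro s hs
    rw [hS', Finset.mem_sdiff] at hs
    exact hs.2
  have h2 := hl T S' hTU
  have h3 := hl S' T hSU
  obtain ⟨E1, hE1⟩ : ∃ E1 : ℝ, E1 = ∑ t ∈ T, ((nb F t \ S').card : ℝ) := ⟨_, rfl⟩
  obtain ⟨E2, hE2⟩ : ∃ E2 : ℝ, E2 = ∑ s ∈ S', ((nb F s \ T).card : ℝ) := ⟨_, rfl⟩
  rw [← hE1] at h2 ⊢
  rw [← hE2] at h3
  -- double counting
  have hsplit : ∀ A B : Finset V, ∑ t ∈ A, ((nb F t \ B).card : ℝ) +
      ((∑ t ∈ A, (nb F t ∩ B).card : ℕ) : ℝ) = ∑ t ∈ A, ((nb F t).card : ℝ) := by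
    intro A B
    push_cast
    rw [← Finset.sum_add_distrib]
    refine Finset.sum_congr rfl fun t _ => ?_
    have := Finset.card_sdiff_add_card_inter (nb F t) B
    exact_mod_cast this
  have h4 := hsplit T S'
  have h5 := hsplit S' T
  rw [sum_inter_comm F S' T] at h5
  rw [← hE1] at h4
  rw [← hE2] at h5
  have h6 : (1 - η / 16) * dR * T.card ≤ ∑ t ∈ T, ((nb F t).card : ℝ) := by
    have : ∑ _t ∈ T, (1 - η / 16) * (dR : ℝ) ≤ ∑ t ∈ T, ((nb F t).card : ℝ) :=
      Finset.sum_le_sum fun t ht => (Finset.mem_filter.mp (hTL ht)).2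
    rw [Finset.sum_const, nsmul_eq_mul] at this
    linarith
  have h7 : ∑ s ∈ S', ((nb F s).card : ℝ) ≤ dR * S'.card := by
    have : ∑ s ∈ S', ((nb F s).card : ℝ) ≤ ∑ _s ∈ S', (dR : ℝ) :=
      Finset.sum_le_sum fun s _ => by exact_mod_cast hdeg s
    rw [Finset.sum_const, nsmul_eq_mul] at this
    linarith
  have hT0 : (0 : ℝ) ≤ T.card := Nat.cast_nonneg _
  have hS0 : (0 : ℝ) ≤ S'.card := Nat.cast_nonneg _
  have h8 : cE * q * ((T.card : ℝ) + S'.card) ≤ 2 * E1 + dR * S'.card -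
      (1 - η / 16) * dR * T.card + η / 100 * q * (T.card + S'.card) := by
    linarith
  have h9 : (dR : ℝ) * S'.card ≤ dR * ((1 + η) * T.card) := mul_le_mul_of_nonneg_left hS'c hdR0.le
  have h10 : 19 * η * q * T.card ≤ (cE - η / 100) * q * (T.card + S'.card) := by
    have i1 : 19 * η ≤ cE - η / 100 := by linarith
    have i2 : 19 * η * (q * T.card) ≤ (cE - η / 100) * (q * T.card) :=
      mul_le_mul_of_nonneg_right i1 (by positivity)
    have i3 : 0 ≤ (cE - η / 100) * (q * S'.card) :=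
      mul_nonneg (by linarith) (by positivity)
    linarith
  have h11 : 19 * η * q * T.card ≤ 2 * E1 + dR * ((17 / 16) * η * T.card) := by linarith
  have h12 : η * dR * T.card * 18 ≤ 19 * η * q * T.card := by
    have : η * T.card * (18 * dR) ≤ η * T.card * (19 * q) :=
      mul_le_mul_of_nonneg_left (by linarith) (by positivity)
    linarith
  have h13 : 0 ≤ η * dR * T.card := by positivity
  linarith

/-! ## The situation of a round -/

theorem renv {UH X : Finset V} {D : SimpleGraph V} {δ' a1 a2 a3 : ℝ} (hUX : UH ⊆ X)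
    (hX : ∀ v, ((nb G v ∩ X).card : ℝ) ≤ a1)
    (hloss : ∀ v, v ∉ UH → ((NP G lab (lab v).2.1 v \ nb (Rg G UH lab) v).card : ℝ) ≤ a2)
    (hD : ∀ v, ((nb D v).card : ℝ) ≤ a3) (h0 : 0 ≤ a2) (h1 : 0 ≤ a3)
    (hs : a1 + a2 + a3 ≤ δ' * qe l d) (hs0 : 0 ≤ δ' * qe l d) :
    REnv G (Rg G UH lab \ D) (qe l d) δ' lab (eP l m r K K1) (eR l) (univ \ X) ∅ where
  FG x y h := by
    rw [SimpleGraph.sdiff_adj] at h
    exact h.1.1
  JU := Finset.empty_subset _
  UP v _ _ := ⟨(lab v).2.1, mem_eP.mpr rfl⟩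
  JP v hv := absurd hv (Finset.notMem_empty _)
  FF b v _ hb x _ _ hvx := by
    rw [SimpleGraph.sdiff_adj] at hvx
    rw [mem_eP] at hb
    rw [mem_PNe, ← hb]
    exact hvx.1.2.2.2.2
  JJ v hv := absurd hv (Finset.notMem_empty _)
  miss b v hv hb := by
    rw [mem_eP] at hb
    subst hb
    rw [Finset.mem_sdiff] at hv
    have hvU : v ∉ UH := fun h => hv.2 (hUX h)
    have hsub : (nb G v ∩ cl lab (PN (eP l m r K K1) (eR l) (lab v).2.1)) \
        (nb (Rg G UH lab \ D) v ∩ (univ \ X)) ⊆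
        ((nb G v ∩ X) ∪ (NP G lab (lab v).2.1 v \ nb (Rg G UH lab) v)) ∪ nb D v := by
      intro x hx
      rw [Finset.mem_sdiff, Finset.mem_inter (s₁ := nb (Rg G UH lab \ D) v), mem_nb,
        SimpleGraph.sdiff_adj, Finset.mem_sdiff] at hx
      rw [Finset.mem_union, Finset.mem_union, Finset.mem_inter, Finset.mem_sdiff]
      by_contra hcon
      push Not at hcon
      obtain ⟨⟨c1, c2⟩, c3⟩ := hcon
      apply hx.2
      refine ⟨⟨mem_nb.mp (c2 hx.1), fun h => c3 (mem_nb.mpr h)⟩, Finset.mem_univ _,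
        c1 (Finset.mem_inter.mp hx.1).1⟩
    have h2 := (Finset.card_le_card hsub).trans (Finset.card_union_le _ _)
    have h3 := Finset.card_union_le (nb G v ∩ X) (NP G lab (lab v).2.1 v \ nb (Rg G UH lab) v)
    have h4 : (((nb G v ∩ cl lab (PN (eP l m r K K1) (eR l) (lab v).2.1)) \
        (nb (Rg G UH lab \ D) v ∩ (univ \ X))).card : ℝ) ≤
        ((nb G v ∩ X).card : ℝ) + ((NP G lab (lab v).2.1 v \ nb (Rg G UH lab) v).card : ℝ) +
          ((nb D v).card : ℝ) := by
      have := h2.trans (Nat.add_le_add_right h3 _)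
      exact_mod_cast this
    linarith [hX v, hloss v hvU, hD v]
  out b v _ := by
    have hsub : (nb G v ∩ cl lab (PN (eP l m r K K1) (eR l) b)) \ (univ \ X) ⊆
        nb G v ∩ X := by
      intro x hx
      rw [Finset.mem_sdiff, Finset.mem_inter, Finset.mem_sdiff] at hx
      rw [Finset.mem_inter]
      refine ⟨hx.1.1, ?_⟩
      by_contra hcon
      exact hx.2 ⟨Finset.mem_univ _, hcon⟩
    have h2 : (((nb G v ∩ cl lab (PN (eP l m r K K1) (eR l) b)) \ (univ \ X)).card : ℝ) ≤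
        ((nb G v ∩ X).card : ℝ) := by exact_mod_cast Finset.card_le_card hsub
    linarith [hX v]
  junk v := by
    rw [Finset.inter_empty, Finset.card_empty]
    push_cast
    exact hs0
  jdeg v hv := absurd hv (Finset.notMem_empty _)

end

end Pool.Agent.Work.MP_db9399_bg.helper90.PEALL

namespace Pool.Agent.Work.MP_db9399_bg.helper90

open Finset Classical
open Pool.Agent.Work.MP_db9399_all (nb)
open Pool.Agent.Work.MP_db9399_dn (NB IsMat Tot)
open Pool.Agent.Work.MP_db9399_sc (cut Crit Conn Env Fam Rnd Hv)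
open PEALL

universe u

theorem stmt_PEALL : Stmt_PEALL.{u} := by
  intro g δ cE l hg hg1 hδ hcE hl
  obtain ⟨η, hη⟩ : ∃ η : ℝ, η = min (δ / 10) (min (cE / 20) (1 / 100)) := ⟨_, rfl⟩
  have hη0 : 0 < η := by
    rw [hη]
    refine lt_min (by linarith) (lt_min (by linarith) (by norm_num))
  have hη1 : η ≤ 1 / 100 := by
    rw [hη]
    exact (min_le_right _ _).trans (min_le_right _ _)
  have hηδ : 10 * η ≤ δ := by
    have : η ≤ δ / 10 := by
      rw [hη]
      exact min_le_left _ _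
    linarith
  have hηc : 20 * η ≤ cE := by
    have : η ≤ cE / 20 := by
      rw [hη]
      exact (min_le_right _ _).trans (min_le_left _ _)
    linarith
  clear hη
  obtain ⟨dP, hPALL⟩ := pall.{u} η (g / 40) hη0 hη1 (by linarith)
  have hΛ : (0 : ℝ) < 2 * l + 1 := by positivity
  refine ⟨⌈1000 * (2 * (l : ℝ) + 1) / η⌉₊, ?_⟩
  intro K1 hK1
  have hK1' : 1000 * (2 * (l : ℝ) + 1) / η ≤ (K1 : ℝ) + 1 := by
    have h1 : 1000 * (2 * (l : ℝ) + 1) / η ≤ (K1 : ℝ) :=
      (Nat.le_ceil _).trans (by exact_mod_cast hK1)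
    linarith
  refine ⟨⌈5000 * ((K1 : ℝ) + 1) ^ 2 * (2 * l + 1) / (η * g)⌉₊ + 1, ?_⟩
  intro m r K hm
  have hm1 : 1 ≤ m := by omega
  have hm' : 5000 * ((K1 : ℝ) + 1) ^ 2 * (2 * l + 1) / (η * g) ≤ 2 * (m : ℝ) + 1 := by
    have h1 : 5000 * ((K1 : ℝ) + 1) ^ 2 * (2 * l + 1) / (η * g) ≤ (m : ℝ) := by
      refine (Nat.le_ceil _).trans ?_
      have : ⌈5000 * ((K1 : ℝ) + 1) ^ 2 * (2 * l + 1) / (η * g)⌉₊ ≤ m := by omega
      exact_mod_cast this
    have h2 : (0 : ℝ) ≤ m := Nat.cast_nonneg _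
    linarith
  have hN0 : (0 : ℝ) < 2 * m + 1 := by positivity
  have hηg : 0 < η * g := mul_pos hη0 hg
  rw [div_le_iff₀ hηg] at hm'
  rw [div_le_iff₀ hη0] at hK1'
  refine ⟨η / (1000 * (2 * l + 1)), η / 1000, η / (1000 * (2 * l + 1)),
    max (⌈1000 * (2 * (l : ℝ) + 1) / η⌉₊ + 1) (dP * (2 * l + 1)), by positivity, by positivity,
    by positivity, ?_⟩
  intro V _ G d k w w1 c1 UH c0 EH tu lab e e1 c wv Nd M O Kk hd hB hLab hCap hSX hH he1 hU hN
    hP hL hmw hw1
  -- numbers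
  have hd1 : ⌈1000 * (2 * (l : ℝ) + 1) / η⌉₊ + 1 ≤ d := (le_max_left _ _).trans hd
  have hd2 : dP * (2 * l + 1) ≤ d := (le_max_right _ _).trans hd
  have hdη : 1000 * (2 * (l : ℝ) + 1) ≤ d * η := by
    have h1 : 1000 * (2 * (l : ℝ) + 1) / η ≤ (d : ℝ) := by
      refine (Nat.le_ceil _).trans ?_
      have : ⌈1000 * (2 * (l : ℝ) + 1) / η⌉₊ ≤ d := by omega
      exact_mod_cast this
    rwa [div_le_iff₀ hη0] at h1
  have hdpos : (0 : ℝ) < d := by
    have : 0 < d := by omega
    exact_mod_cast this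
  obtain ⟨q, hq⟩ : ∃ q : ℝ, q = qe l d := ⟨_, rfl⟩
  have hq' : q * (2 * l + 1) = 2 * d := by
    rw [hq]
    unfold qe
    field_simp
  have hq0 : 0 < q := by
    rw [hq]
    unfold qe
    positivity
  have A1 : 2 ≤ η / 1000 * q := by
    have h1 : 2000 * (2 * (l : ℝ) + 1) ≤ η * q * (2 * l + 1) := by
      have h0 : η * (q * (2 * l + 1)) = η * (2 * d) := by rw [hq']
      linarith
    have h2 : 2000 ≤ η * q := le_of_mul_le_mul_right h1 hΛ
    linarith
  have A2 : η / (1000 * (2 * (l : ℝ) + 1)) * d ≤ η / 1000 * q := by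
    have h1 : η / (1000 * (2 * (l : ℝ) + 1)) * d = η / 2000 * q := by
      have : (d : ℝ) = q * (2 * l + 1) / 2 := by linarith
      rw [this]
      field_simp
      norm_num
    rw [h1]
    linarith [mul_pos hη0 hq0]
  have A3 : (d : ℝ) / (2 * m + 1) ≤ η / 1000 * q := by
    rw [div_le_iff₀ hN0]
    -- 500 (2l+1) ≤ η (2m+1)
    have h1 : (1 : ℝ) ≤ ((K1 : ℝ) + 1) ^ 2 := by
      have : (1 : ℝ) ≤ (K1 : ℝ) + 1 := by
        have : (0 : ℝ) ≤ K1 := Nat.cast_nonneg _
        linarith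
      exact one_le_pow₀ this
    have h2 : 500 * (2 * (l : ℝ) + 1) ≤ η * (2 * m + 1) := by
      have h3 : (2 * (m : ℝ) + 1) * (η * g) ≤ (2 * m + 1) * η * (1 / 10) := by
        have : (2 * (m : ℝ) + 1) * η * g ≤ (2 * m + 1) * η * (1 / 10) :=
          mul_le_mul_of_nonneg_left hg1 (by positivity)
        linarith
      have h4 : 5000 * (2 * (l : ℝ) + 1) ≤ 5000 * ((K1 : ℝ) + 1) ^ 2 * (2 * l + 1) := by
        have := mul_le_mul_of_nonneg_right h1 hΛ.le
        linarith
      linarith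
    have h5 : q * (500 * (2 * (l : ℝ) + 1)) ≤ q * (η * (2 * m + 1)) :=
      mul_le_mul_of_nonneg_left h2 hq0.le
    linarith
  have A4 : 2 * (d : ℝ) / (K1 + 1) ≤ η / 1000 * q := by
    have hK0 : (0 : ℝ) < (K1 : ℝ) + 1 := by positivity
    rw [div_le_iff₀ hK0]
    have h5 : q * (1000 * (2 * (l : ℝ) + 1)) ≤ q * (((K1 : ℝ) + 1) * η) :=
      mul_le_mul_of_nonneg_left hK1' hq0.le
    linarith
  -- the number of colours
  have A6 : ((K1 : ℝ) + 1) ^ 2 * w1 * 24 ≤ g / 40 * q ∧
      ((K1 : ℝ) + 1) ^ 2 * w1 ≤ η / 200 * q := by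
    have h1 : ((K1 : ℝ) + 1) ^ 2 * w1 * (2 * m + 1) ≤ 7 * ((K1 : ℝ) + 1) ^ 2 * d := by
      rw [le_div_iff₀ hN0] at hw1
      have : ((K1 : ℝ) + 1) ^ 2 * (w1 * (2 * m + 1)) ≤ ((K1 : ℝ) + 1) ^ 2 * (7 * d) :=
        mul_le_mul_of_nonneg_left hw1 (by positivity)
      linarith
    have h2 : 5000 * ((K1 : ℝ) + 1) ^ 2 * (2 * d) ≤ (2 * m + 1) * (η * g) * q := by
      have h0 := mul_le_mul_of_nonneg_right hm' hq0.le
      have h0' : 5000 * ((K1 : ℝ) + 1) ^ 2 * (2 * d) =
          5000 * ((K1 : ℝ) + 1) ^ 2 * (2 * l + 1) * q := by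
        rw [← hq']
        ring
      rw [h0']
      exact h0
    -- X := (K1+1)^2 w1
    obtain ⟨X, hX⟩ : ∃ X : ℝ, X = ((K1 : ℝ) + 1) ^ 2 * w1 := ⟨_, rfl⟩
    rw [← hX] at h1 ⊢
    have h3 : X * 1400 ≤ η * g * q := by
      have h4 : X * 1400 * (2 * m + 1) ≤ η * g * q * (2 * m + 1) := by
        have h0 : 0 ≤ ((K1 : ℝ) + 1) ^ 2 * d := by positivity
        linarith
      exact le_of_mul_le_mul_right h4 hN0
    have hX0 : 0 ≤ X := by
      rw [hX]
      positivity
    have h5 : η * g * q ≤ η * q * (1 / 10) := by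
      have : η * q * g ≤ η * q * (1 / 10) := mul_le_mul_of_nonneg_left hg1 (by positivity)
      linarith
    have h6 : η * g * q ≤ g * q * (1 / 100) := by
      have : g * q * η ≤ g * q * (1 / 100) := mul_le_mul_of_nonneg_left hη1 (by positivity)
      linarith
    have h7 : 0 < g * q := by positivity
    have h8 : 0 < η * q := by positivity
    constructor <;> linarith
  -- the degree
  obtain ⟨dR, hdR⟩ : ∃ dR : ℕ, dR = ⌈(1 + η / 100) * q⌉₊ := ⟨_, rfl⟩
  have hdR1 : (1 + η / 100) * q ≤ dR := by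
    rw [hdR]
    exact Nat.le_ceil _
  have hdR2 : (dR : ℝ) ≤ (1 + 11 * η / 1000) * q := by
    have h1 : (dR : ℝ) < (1 + η / 100) * q + 1 := by
      rw [hdR]
      exact Nat.ceil_lt_add_one (by positivity)
    linarith
  have hηq : 0 < η * q := by positivity
  have hdRq : q ≤ dR := by linarith
  have hηq2 : η * q ≤ 1 / 100 * q := mul_le_mul_of_nonneg_right hη1 hq0.le
  have hdRq2 : (dR : ℝ) ≤ 101 / 100 * q := by linarith
  have hηdR : η * q ≤ η * dR := mul_le_mul_of_nonneg_left hdRq hη0.le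
  have hdR0 : (0 : ℝ) < dR := lt_of_lt_of_le hq0 hdRq
  have hdRP : dP ≤ dR := by
    have h1 : (dP : ℝ) * (2 * l + 1) ≤ d := by exact_mod_cast hd2
    have h2 : (dP : ℝ) ≤ dR := by
      have h3 : (dP : ℝ) * (2 * l + 1) ≤ q * (2 * l + 1) := by linarith
      exact (le_of_mul_le_mul_right h3 hΛ).trans hdRq
    exact_mod_cast h2
  -- degrees in the reserve graph
  have hdeg : ∀ v, (nb (Rg G UH lab) v).card ≤ dR := by
    intro v
    have h1 : ((nb (Rg G UH lab) v).card : ℝ) ≤ ((NP G lab (lab v).2.1 v).card : ℝ) := by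
      exact_mod_cast Finset.card_le_card (Rg_sub v)
    have h2 := NP_le hl hm1 hB hLab (lab v).2.1 v
    rw [← hq] at h2
    have h3 : ((nb (Rg G UH lab) v).card : ℝ) ≤ dR := by linarith
    exact_mod_cast h3
  have hloss : ∀ v, v ∉ UH → ((NP G lab (lab v).2.1 v \ nb (Rg G UH lab) v).card : ℝ) ≤
      3 * η / 1000 * q := by
    intro v hv
    have h1 := (Finset.card_le_card (Rg_miss (G := G) (lab := lab) hv)).trans
      (Finset.card_union_le _ _)
    have h2 := hH.two v
    have h3 := cell_le hB hLab (lab v).1 v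
    have h4 : ((NP G lab (lab v).2.1 v \ nb (Rg G UH lab) v).card : ℝ) ≤
        2 + ((nb G v ∩ Vc lab (lab v).1).card : ℝ) := by
      have : (NP G lab (lab v).2.1 v \ nb (Rg G UH lab) v).card ≤
        2 + (nb G v ∩ Vc lab (lab v).1).card := by omega
      exact_mod_cast this
    linarith
  have hNB : NB η (Rg G UH lab) dR (Hv η (Rg G UH lab) dR) :=
    NB_Rg hη0 hηc hq hq0 hSX (fun v hv => (hloss v hv).trans (by linarith)) hdR0 hη1 hdRq2 hdeg
  have hHv : ∀ v, v ∉ UH → v ∈ Hv η (Rg G UH lab) dR := by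
    intro v hv
    unfold Hv
    rw [Finset.mem_filter]
    refine ⟨Finset.mem_univ _, ?_⟩
    have h1 := NP_ge hl hm1 hB hLab (lab v).2.1 v
    rw [← hq] at h1
    have h2 := hloss v hv
    have h3 : ((NP G lab (lab v).2.1 v).card : ℝ) ≤
        ((NP G lab (lab v).2.1 v \ nb (Rg G UH lab) v).card : ℝ) +
          ((nb (Rg G UH lab) v).card : ℝ) := by
      have h4 : NP G lab (lab v).2.1 v ⊆
          (NP G lab (lab v).2.1 v \ nb (Rg G UH lab) v) ∪ nb (Rg G UH lab) v := by
        intro x hx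
        rw [Finset.mem_union, Finset.mem_sdiff]
        by_cases h5 : x ∈ nb (Rg G UH lab) v
        · exact Or.inr h5
        · exact Or.inl ⟨hx, h5⟩
      have := (Finset.card_le_card h4).trans (Finset.card_union_le _ _)
      exact_mod_cast this
    have h5 : (1 - η / 16) * (dR : ℝ) ≤ (1 - η / 16) * ((1 + 11 * η / 1000) * q) :=
      mul_le_mul_of_nonneg_left hdR2 (by linarith)
    linarith [mul_pos hη0 hηq]
  -- forbidden vertices
  have hXX : ∀ b ∈ (univ : Finset (Fin (K1 + 1) × Fin (K1 + 1) × Fin w1)).image e1, ∀ v,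
      ((nb G v ∩ XX UH c0 tu wv e1 Kk b).card : ℝ) ≤ 4 * η / 1000 * q := by
    intro b hb v
    obtain ⟨y, _, rfl⟩ := Finset.mem_image.mp hb
    have h1 := XX_le hB hLab hH he1 hU hL y v
    linarith
  have hDD : ∀ v, ((nb (DD M) v).card : ℝ) ≤ 4 * η / 1000 * q := by
    intro v
    have h1 := DD_deg hN hP v
    have h2 : ((nb (DD M) v).card : ℝ) ≤ 4 * (m * w) := by exact_mod_cast h1
    have h3 : (m : ℝ) * w ≤ d / (2 * m + 1) := by
      rw [le_div_iff₀ hN0]
      linarith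
    linarith
  have hlg : m * w * (2 * m + 1) ≤ d := by
    have : ((m * w * (2 * m + 1) : ℕ) : ℝ) ≤ (d : ℕ) := by
      push_cast
      linarith
    exact_mod_cast this
  obtain ⟨R, hR⟩ := hPALL (Rg G UH lab) dR k
    ((univ : Finset (Fin (K1 + 1) × Fin (K1 + 1) × Fin w1)).image e1) (DD M)
    (XX UH c0 tu wv e1 Kk)
    (univ.filter (fun v => v ∉ UH ∧ inW (lab v) ∧ ∀ x, v ∉ O x)) hdRP hdeg hNB
    (by
      have h1 : ((univ : Finset (Fin (K1 + 1) × Fin (K1 + 1) × Fin w1)).image e1).card ≤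
          (K1 + 1) ^ 2 * w1 := by
        refine Finset.card_image_le.trans ?_
        rw [Finset.card_univ, Fintype.card_prod, Fintype.card_prod, Fintype.card_fin,
          Fintype.card_fin]
        apply le_of_eq
        ring
      have h2 : (((univ : Finset (Fin (K1 + 1) × Fin (K1 + 1) × Fin w1)).image e1).card : ℝ) ≤
          ((K1 : ℝ) + 1) ^ 2 * w1 := by exact_mod_cast h1
      have h3 : η / 200 * q ≤ η / 200 * dR := mul_le_mul_of_nonneg_left hdRq (by positivity)
      linarith [A6.2])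
    (by
      have h1 : ((univ : Finset (Fin (K1 + 1) × Fin (K1 + 1) × Fin w1)).image e1).card ≤
          (K1 + 1) ^ 2 * w1 := by
        refine Finset.card_image_le.trans ?_
        rw [Finset.card_univ, Fintype.card_prod, Fintype.card_prod, Fintype.card_fin,
          Fintype.card_fin]
        apply le_of_eq
        ring
      have h2 : (((univ : Finset (Fin (K1 + 1) × Fin (K1 + 1) × Fin w1)).image e1).card : ℝ) ≤
          ((K1 : ℝ) + 1) ^ 2 * w1 := by exact_mod_cast h1
      have h3 : g / 40 * q ≤ g / 40 * dR := mul_le_mul_of_nonneg_left hdRq (by positivity)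
      linarith [A6.1])
    (by
      intro v
      have h1 := hDD v
      linarith)
    (by
      intro b hb v
      have h1 : ((nb (Rg G UH lab) v ∩ XX UH c0 tu wv e1 Kk b).card : ℝ) ≤
          ((nb G v ∩ XX UH c0 tu wv e1 Kk b).card : ℝ) := by
        exact_mod_cast Finset.card_le_card
          (Finset.inter_subset_inter_right (nb_mono Rg_le v))
      have h2 := hXX b hb v
      linarith)
    (by
      intro b hb D C hD _ hCrit hConn
      have hren : REnv G (Rg G UH lab \ D) (qe l d) δ lab (eP l m r K K1) (eR l)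
          (univ \ XX UH c0 tu wv e1 Kk b) ∅ := by
        refine renv (a1 := 4 * η / 1000 * q) (a2 := 3 * η / 1000 * q)
          (a3 := η / 100 * dR) ?_ (hXX b hb) hloss hD (by positivity) (by positivity) ?_ ?_
        · intro x hx
          unfold XX
          rw [Finset.mem_union, Finset.mem_union]
          exact Or.inl (Or.inl hx)
        · rw [← hq]
          have h1 : η / 100 * dR ≤ η / 100 * (101 / 100 * q) :=
            mul_le_mul_of_nonneg_left hdRq2 (by positivity)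
          have h2 : 10 * η * q ≤ δ * q := mul_le_mul_of_nonneg_right hηδ hq0.le
          linarith
        · rw [← hq]
          positivity
      have hcap := hCap (Rg G UH lab \ D) (univ \ XX UH c0 tu wv e1 Kk b)
        (Hv η (Rg G UH lab) dR \ XX UH c0 tu wv e1 Kk b) C dR (m * w)
        (fun a i => if h : i < m * w then O (a, finProdFinEquiv.symm ⟨i, h⟩) else ∅) hren
        (by rw [← hq]; exact hdRq) (by rw [← hq]; exact hdRq2)
        (Finset.sdiff_subset_sdiff (Finset.subset_univ _) subset_rfl) hCrit hConn hlg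
        (by
          intro a i hi
          simp only [dif_pos hi]
          exact hP.spr (a, finProdFinEquiv.symm ⟨i, hi⟩))
      refine hcap.trans ?_
      have hsub : C.filter (fun v => inW (lab v) ∧ ∀ a, ∀ i < m * w,
          v ∉ (if h : i < m * w then O (a, finProdFinEquiv.symm ⟨i, h⟩) else ∅)) ⊆
          C ∩ univ.filter (fun v => v ∉ UH ∧ inW (lab v) ∧ ∀ x, v ∉ O x) := by
        intro v hv
        rw [Finset.mem_filter] at hv
        rw [Finset.mem_inter, Finset.mem_filter]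
        obtain ⟨hvC, hvW, hvO⟩ := hv
        refine ⟨hvC, Finset.mem_univ _, ?_, hvW, ?_⟩
        · intro hvU
          have h1 := hCrit.1 hvC
          rw [Finset.mem_sdiff] at h1
          apply h1.2
          unfold XX
          rw [Finset.mem_union, Finset.mem_union]
          exact Or.inl (Or.inl hvU)
        · intro x hx
          obtain ⟨a, p⟩ := x
          have h1 := hvO a (finProdFinEquiv p).val (finProdFinEquiv p).isLt
          rw [dif_pos (finProdFinEquiv p).isLt] at h1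
          apply h1
          have h2 : finProdFinEquiv.symm
              ⟨(finProdFinEquiv p).val, (finProdFinEquiv p).isLt⟩ = p :=
            finProdFinEquiv.symm_apply_apply p
          rw [h2]
          exact hx
      exact_mod_cast Finset.card_le_card hsub)
  -- the result
  have hI : ∀ y, e1 y ∈ (univ : Finset (Fin (K1 + 1) × Fin (K1 + 1) × Fin w1)).image e1 :=
    fun y => Finset.mem_image.mpr ⟨y, Finset.mem_univ _, rfl⟩
  have hXmem : ∀ y v, v ∈ XX UH c0 tu wv e1 Kk (e1 y) ↔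
      (v ∈ UH ∨ v ∈ UW UH c0 tu wv (e1 y)) ∨ (nb (Kk y) v).Nonempty := by
    intro y v
    unfold XX
    rw [Finset.mem_union, Finset.mem_union, Finset.mem_filter]
    constructor
    · rintro (h | ⟨_, y', hy', h⟩)
      · exact Or.inl h
      · rw [he1 hy'] at h
        exact Or.inr h
    · rintro (h | h)
      · exact Or.inl h
      · exact Or.inr ⟨Finset.mem_univ _, y, rfl, h⟩
  have hOW : ∀ y, ∀ v ∈ R.O (e1 y), v ∉ UH ∧ inW (lab v) ∧ ∀ x, v ∉ O x := by
    intro y v hv
    exact (Finset.mem_filter.mp (hR (e1 y) (hI y) hv)).2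
  refine ⟨fun y => R.M (e1 y), fun y => R.O (e1 y), ?_⟩
  exact
    { le := by
        intro y v v' h
        have h1 := (R.MD _ _ _ h).2
        rw [hXmem] at h1
        push Not at h1
        exact ⟨R.Mle _ h, h1.1.2, Finset.not_nonempty_iff_eq_empty.mpr h1.2⟩
      mat := fun y => R.Mmat (e1 y)
      dis := by
        intro y y' hyy v v' h
        exact R.Md (e1 y) (e1 y') (fun h0 => hyy (he1 h0)) v v' h
      new := by
        intro y v v' h x hx
        exact (R.MD _ _ _ h).1 (DD_adj.mpr ⟨x, hx⟩)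
      cov := by
        intro y v hvU hvW hvK hvO
        refine R.Mcov (e1 y) (hI y) v (hHv v hvU) ?_ hvO
        rw [hXmem]
        rintro ((h | h) | h)
        · exact hvU h
        · exact hvW h
        · exact hvK h
      OW := fun y v hv => ⟨(hOW y v hv).1, (hOW y v hv).2.1⟩
      O1d := fun y y' hyy => R.Od (e1 y) (hI y) (e1 y') (hI y') (fun h0 => hyy (he1 h0))
      Od := by
        intro y x
        rw [Finset.disjoint_left]
        intro v hv hx
        exact (hOW y v hv).2.2 x hx }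

end Pool.Agent.Work.MP_db9399_bg.helper90
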